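import Pool.Agent.X194.AB.NoEmb

/-!
# Measure-wise embeddings do not give almost Borel embeddings (MP_93a5dd_an, Q1: no)

For every `d ≥ 1` there are topological `ℤ^d`-systems `(X, S)`, `(Y, T)` such that every invariant
probability measure of `(Y, T)` (ergodic or not) can be realized as an invariant measure on `(X, S)`,
but there is no almost Borel embedding of `(Y, T)` into `(X, S)`.

Idea. A point `z` of `Bool ^ (List ℕ)` is a labelled tree; its consistent evaluations form a
nonempty `Gδ` set with a measurable selection almost everywhere for each measure, but without Borel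
selection (diagonalization over Borel codes). `Y` is the family over `z` of odometers with a set of
primes depending on `z`; `X` is the family, over pairs `(z, e)`, of odometers whose spectrum is the
one of `Y_z` exactly if `e` is a consistent evaluation of `z`.
-/

open MeasureTheory Filter Topology Set

namespace Pool.Agent.Results.MP_93a5dd_an.NoAlmostBorelEmbedding

/-- An action of `ℤ^d`. -/
structure IsAction {d : ℕ} {X : Type} (S : (Fin d → ℤ) → X → X) : Prop where
  zero : ∀ x, S 0 x = x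
  add : ∀ i j x, S (i + j) x = S i (S j x)

/-- A topological `ℤ^d`-system: a compact metrizable space with an action by continuous maps
(hence by homeomorphisms). -/
structure IsTopSys {d : ℕ} {X : Type} [TopologicalSpace X] (S : (Fin d → ℤ) → X → X) : Prop where
  compact : CompactSpace X
  metrizable : TopologicalSpace.MetrizableSpace X
  action : IsAction S
  cont : ∀ i, Continuous (S i)

/-- The invariant Borel probability measures. -/
def Prob {d : ℕ} {Y : Type} [MeasurableSpace Y] (T : (Fin d → ℤ) → Y → Y) : Set (Measure Y) :=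
  {μ | IsProbabilityMeasure μ ∧ ∀ i, MeasurePreserving (T i) μ μ}

/-- Invariant sets. -/
def Inv {d : ℕ} {Y : Type} (T : (Fin d → ℤ) → Y → Y) (Y0 : Set Y) : Prop :=
  ∀ i, ∀ y ∈ Y0, T i y ∈ Y0

/-- Morphisms `(Y0, T) → (X, S)`. -/
structure IsMorphism {d : ℕ} {X Y : Type} [MeasurableSpace X] [MeasurableSpace Y]
    (T : (Fin d → ℤ) → Y → Y) (S : (Fin d → ℤ) → X → X) (Y0 : Set Y) (ρ : Y0 → X) : Prop where
  meas : Measurable ρ
  equivariant : ∀ (i : Fin d → ℤ) (y : Y0) (h : T i y ∈ Y0), ρ ⟨T i y, h⟩ = S i (ρ y)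

/-- `(Y, μ, T)` can be realized as an invariant measure on `(X, S)`. -/
def Realized {d : ℕ} {X Y : Type} [MeasurableSpace X] [MeasurableSpace Y]
    (T : (Fin d → ℤ) → Y → Y) (S : (Fin d → ℤ) → X → X) (μ : Measure Y) : Prop :=
  ∃ Y0 : Set Y, MeasurableSet Y0 ∧ Inv T Y0 ∧ μ Y0ᶜ = 0 ∧
    ∃ ρ : Y0 → X, IsMorphism T S Y0 ρ ∧ Function.Injective ρ

/-- There is an almost Borel embedding of `(Y, T)` into `(X, S)`. -/
def AlmostBorelEmbeds {d : ℕ} {X Y : Type} [MeasurableSpace X] [MeasurableSpace Y]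
    (T : (Fin d → ℤ) → Y → Y) (S : (Fin d → ℤ) → X → X) : Prop :=
  ∃ Y0 : Set Y, MeasurableSet Y0 ∧ Inv T Y0 ∧ (∀ μ ∈ Prob T, μ Y0ᶜ = 0) ∧
    ∃ ρ : Y0 → X, IsMorphism T S Y0 ρ ∧ Function.Injective ρ

open Pool.Agent.X194.AB

theorem result (d : ℕ) (hd : 1 ≤ d) :
    ∃ (X Y : Type) (_ : TopologicalSpace X) (_ : TopologicalSpace Y) (_ : MeasurableSpace X)
      (_ : MeasurableSpace Y) (_ : BorelSpace X) (_ : BorelSpace Y)
      (S : (Fin d → ℤ) → X → X) (T : (Fin d → ℤ) → Y → Y),
      IsTopSys S ∧ IsTopSys T ∧ (∀ μ ∈ Prob T, Realized T S μ) ∧ ¬ AlmostBorelEmbeds T S := by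
  refine ⟨XX, YY, inferInstance, inferInstance, inferInstance, inferInstance, inferInstance,
    inferInstance, fun i => SX (i ⟨0, hd⟩), fun i => TY (i ⟨0, hd⟩), ?_, ?_, ?_, ?_⟩
  · exact ⟨inferInstance, inferInstance, ⟨SX_zero, fun i j x => SX_add _ _ x⟩,
      fun i => continuous_SX _⟩
  · exact ⟨inferInstance, inferInstance, ⟨TY_zero, fun i j x => TY_add _ _ x⟩,
      fun i => continuous_TY _⟩
  · rintro μ ⟨hμ, _⟩
    obtain ⟨Y0, h1, h2, h3, ρ, h4, h5, h6⟩ := realize μ
    refine ⟨Y0, h1, fun i y hy => h2 _ y hy, h3, fun y => ρ y, ⟨h4.comp measurable_subtype_coe,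
      fun i y _ => h5 _ y⟩, ?_⟩
    intro y y' hyy
    exact Subtype.ext (h6 y.2 y'.2 hyy)
  · rintro ⟨Y0, h1, h2, h3, ρ, ⟨h4, h5⟩, h6⟩
    obtain ⟨ρ', h7, h8⟩ := (MeasurableEmbedding.subtype_coe h1).exists_measurable_extend h4
      (fun _ => ⟨(((fun _ => true), (fun _ => true)), 0)⟩)
    have h9 : ∀ y : Y0, ρ' y = ρ y := fun y => congrFun h8 y
    refine no_embed Y0 (fun z => h3 _ ⟨inferInstance, fun i => nuz_inv z _⟩) ρ' h7 ?_ h1 ?_
    · intro y hy
      have h10 : TY 1 y ∈ Y0 := h2 (fun _ => 1) y hy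
      have h11 := h5 (fun _ => 1) ⟨y, hy⟩ h10
      rw [← h9, ← h9] at h11
      exact h11
    · intro y hy y' hy' hyy
      have h10 : ρ ⟨y, hy⟩ = ρ ⟨y', hy'⟩ := by rw [← h9, ← h9]; exact hyy
      exact congrArg Subtype.val (h6 h10)

end Pool.Agent.Results.MP_93a5dd_an.NoAlmostBorelEmbedding
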